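import Pool.Agent.V2450.Fil.Core

/-!
# MP_f8720a_ag: a numerical criterion for Kato's log l-adic monodromy-weight conjecture, and a bound
for its failure
-/

set_option autoImplicit false

open Module

universe u v

namespace Pool.Agent.Results.MP_f8720a_ag.NumericalCriterion

open Pool.Agent.V2450.Fil

/-- The stalk `V` of `H^q = R^q f_* ℚ_l` at a geometric point of the base of a family of log points,
for a projective SNCL scheme, with the weight filtration `P` and the monodromy operator `N` (the Tate
twists are suppressed). -/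
structure LogH (F : Type u) [Field F] where
  /-- the stalk -/
  V : Type v
  [addCommGroup : AddCommGroup V]
  [module : Module F V]
  /-- the monodromy operator -/
  N : Module.End F V
  /-- the weight filtration -/
  P : ℤ → Submodule F V

attribute [instance] LogH.addCommGroup LogH.module

variable {F : Type u} [Field F]

/-- The known properties: `V` is finite dimensional, `P` is a finite increasing filtration, and
`N P_k ⊆ P_(k - 2)`. -/
structure Known (H : LogH.{u, v} F) : Prop where
  finite : Module.Finite F H.V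
  lowered : Lowered H.N H.P

/-- The weight filtration, centred at `q`: its member of index `k` is `P_(q + k)`. -/
def centred (H : LogH.{u, v} F) (q : ℤ) (k : ℤ) : Submodule F H.V := H.P (q + k)

/-- Kato's conjecture for `H^q`: for all `e ≥ 1` the map `N ^ e : gr_(q + e) → gr_(q - e)` is
bijective. -/
def Kato (H : LogH.{u, v} F) (q : ℤ) : Prop :=
  ∀ e : ℕ, 1 ≤ e → (∀ x ∈ H.P (q + e), (H.N ^ e) x ∈ H.P (q - e - 1) → x ∈ H.P (q + e - 1)) ∧
    ∀ y ∈ H.P (q - e), ∃ x ∈ H.P (q + e), y - (H.N ^ e) x ∈ H.P (q - e - 1)

/-- The second moment `∑ k² dim gr_(q + k)` of the weight filtration of `H^q`. -/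
noncomputable def weightMoment (H : LogH.{u, v} F) (q : ℤ) : ℤ := moment (centred H q)

/-- The number `2 ∑ e rank (N ^ e)`. -/
noncomputable def rankMoment (H : LogH.{u, v} F) : ℤ := ranks H.N

/-- The number `∑ e (dim Ker + dim Coker)` of the maps `N ^ e : gr_(q + e) → gr_(q - e)`, `e ≥ 1`. -/
noncomputable def failure (H : LogH.{u, v} F) (q : ℤ) : ℤ := defect H.N (centred H q)

lemma kato_iff (H : LogH.{u, v} F) (q : ℤ) : Kato H q ↔ Central H.N (centred H q) := by
  unfold Kato Central centred
  refine forall₂_congr fun e _ => ?_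
  rw [show q + (-(e : ℤ) - 1) = q - e - 1 by ring, show q + ((e : ℤ) - 1) = q + e - 1 by ring,
    show q + -(e : ℤ) = q - e by ring]

lemma lowered_centred {H : LogH.{u, v} F} (h : Known H) (q : ℤ) :
    Lowered H.N (centred H q) := by
  obtain ⟨h1, ⟨a, ha⟩, ⟨b, hb⟩, h4⟩ := h.lowered
  refine ⟨fun i j hij => h1 (by omega), ⟨a - q, ?_⟩, ⟨b - q, ?_⟩, fun k x hx => ?_⟩
  · unfold centred
    rw [show q + (a - q) = a by ring, ha]
  · unfold centred
    rw [show q + (b - q) = b by ring, hb]
  · have := h4 _ x hx
    unfold centred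
    rwa [show q + (k - 2) = q + k - 2 by ring]

/-- **A numerical criterion for Kato's conjecture.** Let `H q` be the group `H^q` of a projective SNCL
scheme over a family of log points, with the weight filtration `P` and the monodromy operator `N`.

(1) `2 ∑ e rank (N ^ e) + ∑ e (dim Ker (N ^ e) + dim Coker (N ^ e)) ≤ ∑ k² dim gr_(q + k) H^q`; here
`Ker` and `Coker` are those of the maps `N ^ e : gr_(q + e) H^q → gr_(q - e) H^q`, `e ≥ 1`, and the rank
is the rank on `H^q`.

(2) Kato's conjecture holds for `H^q` if and only if `2 ∑ e rank (N ^ e) = ∑ k² dim gr_(q + k) H^q`.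

(3) It holds for `H^q` for all `q` in a finite set `S` if and only if the sums over `q ∈ S` of the two
sides of (2) agree. -/
theorem result (H : ℕ → LogH.{u, v} F) (hH : ∀ q, Known (H q)) :
    (∀ q, rankMoment (H q) + failure (H q) q ≤ weightMoment (H q) q ∧ 0 ≤ failure (H q) q ∧
      (failure (H q) q = 0 ↔ Kato (H q) q)) ∧
    (∀ q, Kato (H q) q ↔ rankMoment (H q) = weightMoment (H q) q) ∧
    ∀ S : Finset ℕ, (∀ q ∈ S, Kato (H q) q) ↔
      ∑ q ∈ S, rankMoment (H q) = ∑ q ∈ S, weightMoment (H q) q := by
  have h1 : ∀ q, rankMoment (H q) + failure (H q) q ≤ weightMoment (H q) q ∧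
      0 ≤ failure (H q) q := by
    intro q
    have := (hH q).finite
    exact ⟨moment_le (lowered_centred (hH q) q), defect_nonneg (lowered_centred (hH q) q)⟩
  have h2 : ∀ q : ℕ, Kato (H q) q ↔ rankMoment (H q) = weightMoment (H q) q := by
    intro q
    have := (hH q).finite
    rw [kato_iff]
    exact (criterion (lowered_centred (hH q) q)).symm
  refine ⟨fun q => ⟨(h1 q).1, (h1 q).2, ?_⟩, h2, fun S => ?_⟩
  · have := (hH q).finite
    rw [kato_iff]
    exact defect_zero_iff (lowered_centred (hH q) q)
  · rw [Finset.sum_eq_sum_iff_of_le fun q _ => by have := h1 q; omega]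
    exact forall₂_congr fun q _ => h2 q

end Pool.Agent.Results.MP_f8720a_ag.NumericalCriterion
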